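import Pool.Agent.H25.VT.Spec

/-! VM1: pointwise estimate of the maximal function for functions with values in `{0} ∪ [1,∞]`. -/

set_option autoImplicit false

namespace Pool.Agent.Helper51.VT

open MeasureTheory Pool.Agent.H25.VT
open scoped ENNReal

/-- Jensen's inequality for a finite measure -/
theorem jensen {α : Type*} [MeasurableSpace α] (μ : Measure α) (f : α → ℝ≥0∞)
    (hf : AEMeasurable f μ) (V : ℝ≥0∞) (hV : μ Set.univ = V) (hV0 : V ≠ 0) (hVt : V ≠ ∞)
    (b : ℝ) (hb : 1 ≤ b) :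
    (V⁻¹ * ∫⁻ y, f y ∂μ) ^ b ≤ V⁻¹ * ∫⁻ y, f y ^ b ∂μ := by
  rcases eq_or_lt_of_le hb with rfl | hb
  · simp
  · have hb0 : 0 < b := by linarith
    have hq : b.HolderConjugate (Real.conjExponent b) := Real.HolderConjugate.conjExponent hb
    have h1 := ENNReal.lintegral_mul_le_Lp_mul_Lq μ hq hf
      (aemeasurable_const (b := (1 : ℝ≥0∞)))
    simp only [Pi.mul_apply, mul_one, ENNReal.one_rpow, lintegral_const, one_mul, hV] at h1
    have h2 : V⁻¹ * ∫⁻ y, f y ∂μ ≤ (V⁻¹ * ∫⁻ y, f y ^ b ∂μ) ^ (1 / b) := by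
      rw [ENNReal.mul_rpow_of_nonneg _ _ (by positivity)]
      calc V⁻¹ * ∫⁻ y, f y ∂μ ≤ V⁻¹ * ((∫⁻ y, f y ^ b ∂μ) ^ (1 / b) *
            V ^ (1 / Real.conjExponent b)) := by gcongr
        _ = (V⁻¹ * V ^ (1 / Real.conjExponent b)) * (∫⁻ y, f y ^ b ∂μ) ^ (1 / b) := by ring
        _ = V⁻¹ ^ (1 / b) * (∫⁻ y, f y ^ b ∂μ) ^ (1 / b) := by
            congr 1
            rw [← ENNReal.rpow_neg_one, ← ENNReal.rpow_add _ _ hV0 hVt, ← ENNReal.rpow_mul]
            congr 1
            have := hq.inv_add_inv_eq_one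
            simp only [one_div]
            linarith
    calc (V⁻¹ * ∫⁻ y, f y ∂μ) ^ b ≤ ((V⁻¹ * ∫⁻ y, f y ^ b ∂μ) ^ (1 / b)) ^ b :=
          ENNReal.rpow_le_rpow h2 hb0.le
      _ = V⁻¹ * ∫⁻ y, f y ^ b ∂μ := by
          rw [← ENNReal.rpow_mul, one_div_mul_cancel hb0.ne', ENNReal.rpow_one]

theorem one_le_log (d : ℝ) (hd : 0 ≤ d) : 1 ≤ Real.log (Real.exp 1 + d) := by
  rw [Real.le_log_iff_exp_le (by positivity)]
  linarith

/-- the constant -/
noncomputable def om (n : ℕ) : ℝ := (volume (Metric.ball (0 : E n) 1)).toReal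

theorem om_pos (n : ℕ) : 0 < om n :=
  ENNReal.toReal_pos (Metric.measure_ball_pos volume 0 one_pos).ne' measure_ball_lt_top.ne

theorem ball_bound (n : ℕ) (a : E n → ℝ) (c : ℝ) (hc : 0 ≤ c)
    (ha1 : ∀ x, 1 ≤ a x)
    (ha : ∀ x y : E n, |a x - a y| ≤ c / Real.log (Real.exp 1 + 1 / ‖x - y‖))
    (f : E n → ℝ≥0∞) (hf : Measurable f) (hf1 : ∀ x, f x = 0 ∨ 1 ≤ f x)
    (hint : ∫⁻ x, f x ^ a x ≤ 1) (x : E n) (t : ℝ) (ht : 0 < t) :
    ((volume (Metric.ball x t))⁻¹ * ∫⁻ y in Metric.ball x t, f y) ^ a x ≤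
      ENNReal.ofReal ((max 1 (om n)⁻¹) ^ c * Real.exp (n * c)) *
        ((volume (Metric.ball x t))⁻¹ * ∫⁻ y in Metric.ball x t, f y ^ a y) := by
  set V := volume (Metric.ball x t) with hVdef
  have hV0 : V ≠ 0 := (Metric.measure_ball_pos volume x ht).ne'
  have hVt : V ≠ ∞ := measure_ball_lt_top.ne
  set δ := c / Real.log (Real.exp 1 + 1 / t) with hδdef
  have hlog : 1 ≤ Real.log (Real.exp 1 + 1 / t) := one_le_log _ (by positivity)
  have hδ0 : 0 ≤ δ := by positivity
  have hδc : δ ≤ c := by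
    rw [hδdef, div_le_iff₀ (by linarith)]
    nlinarith
  set b := max 1 (a x - δ) with hbdef
  have hb1 : 1 ≤ b := le_max_left _ _
  have hba : b ≤ a x := max_le (ha1 x) (by linarith)
  have hbδ : a x - b ≤ δ := by
    have := le_max_right 1 (a x - δ)
    rw [← hbdef] at this
    linarith
  have hby : ∀ y ∈ Metric.ball x t, b ≤ a y := by
    intro y hy
    refine max_le (ha1 y) ?_
    rw [Metric.mem_ball, dist_eq_norm] at hy
    have h1 := ha x y
    rcases eq_or_ne x y with rfl | hxy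
    · linarith
    · have hpos : 0 < ‖x - y‖ := norm_pos_iff.mpr (sub_ne_zero.mpr hxy)
      have h2 : c / Real.log (Real.exp 1 + 1 / ‖x - y‖) ≤ δ := by
        rw [hδdef]
        apply div_le_div_of_nonneg_left hc (by linarith)
        apply Real.log_le_log (by positivity)
        have : 1 / t ≤ 1 / ‖x - y‖ := one_div_le_one_div_of_le hpos (by
          rw [norm_sub_rev]; exact hy.le)
        linarith
      have h3 := (abs_le.mp (h1.trans h2)).2
      linarith
  have hpw : ∀ y ∈ Metric.ball x t, f y ^ b ≤ f y ^ a y := by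
    intro y hy
    rcases hf1 y with h0 | h1
    · rw [h0, ENNReal.zero_rpow_of_pos (by linarith), ENNReal.zero_rpow_of_pos (by
        have := ha1 y; linarith)]
    · exact ENNReal.rpow_le_rpow_of_exponent_le h1 (hby y hy)
  have hpw1 : ∀ y, f y ≤ f y ^ a y := by
    intro y
    rcases hf1 y with h0 | h1
    · rw [h0]; exact bot_le
    · calc f y = f y ^ (1 : ℝ) := (ENNReal.rpow_one _).symm
        _ ≤ f y ^ a y := ENNReal.rpow_le_rpow_of_exponent_le h1 (ha1 y)
  set M := V⁻¹ * ∫⁻ y in Metric.ball x t, f y with hM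
  set W := V⁻¹ * ∫⁻ y in Metric.ball x t, f y ^ a y with hW
  have h1 : M ^ b ≤ W := by
    calc M ^ b ≤ V⁻¹ * ∫⁻ y in Metric.ball x t, f y ^ b :=
          jensen (volume.restrict (Metric.ball x t)) f hf.aemeasurable V
            (by rw [Measure.restrict_apply_univ]) hV0 hVt b hb1
      _ ≤ W := by
          rw [hW]
          gcongr 1
          exact setLIntegral_mono' measurableSet_ball hpw
  have h3 : M ≤ V⁻¹ := by
    calc M ≤ V⁻¹ * 1 := by
          rw [hM]
          gcongr 1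
          calc ∫⁻ y in Metric.ball x t, f y ≤ ∫⁻ y in Metric.ball x t, f y ^ a y :=
                lintegral_mono hpw1
            _ ≤ ∫⁻ y, f y ^ a y := setLIntegral_le_lintegral _ _
            _ ≤ 1 := hint
      _ = V⁻¹ := mul_one _
  have hω := om_pos n
  set β := max 1 (om n)⁻¹ with hβ
  set τ := max 1 (t ^ n)⁻¹ with hτ
  have hβ1 : 1 ≤ β := le_max_left _ _
  have hτ1 : 1 ≤ τ := le_max_left _ _
  have hVinv : V⁻¹ ≤ ENNReal.ofReal (β * τ) := by
    have hV2 : V = ENNReal.ofReal (t ^ n * om n) := by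
      rw [hVdef, Measure.addHaar_ball_of_pos _ _ ht, ENNReal.ofReal_mul (by positivity), om,
        ENNReal.ofReal_toReal measure_ball_lt_top.ne]
      congr 3
      simp
    rw [hV2, ← ENNReal.ofReal_inv_of_pos (by positivity)]
    apply ENNReal.ofReal_le_ofReal
    rw [mul_inv, mul_comm]
    exact mul_le_mul (le_max_right _ _) (le_max_right _ _) (by positivity) (by positivity)
  have hτδ : τ ^ δ ≤ Real.exp (n * c) := by
    rcases le_or_gt 1 t with h | h
    · have : τ = 1 := max_eq_left (inv_le_one_of_one_le₀ (one_le_pow₀ h))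
      rw [this, Real.one_rpow]
      exact Real.one_le_exp (by positivity)
    · have h2 : τ = (t ^ n)⁻¹ := max_eq_right (one_le_inv_iff₀.mpr ⟨by positivity,
        pow_le_one₀ ht.le h.le⟩)
      rw [h2, Real.rpow_def_of_pos (by positivity)]
      apply Real.exp_le_exp.mpr
      rw [Real.log_inv, Real.log_pow]
      have h3 : -Real.log t ≤ Real.log (Real.exp 1 + 1 / t) := by
        rw [← Real.log_inv]
        apply Real.log_le_log (by positivity)
        rw [one_div]
        have := Real.exp_pos 1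
        linarith
      have h4 : -Real.log t * δ ≤ c := by
        rw [hδdef, mul_div_assoc', div_le_iff₀ (by linarith)]
        rw [mul_comm c]
        exact mul_le_mul_of_nonneg_right h3 hc
      have h5 : (0 : ℝ) ≤ n := Nat.cast_nonneg n
      calc -(n * Real.log t) * δ = n * (-Real.log t * δ) := by ring
        _ ≤ n * c := mul_le_mul_of_nonneg_left h4 h5
  have h5 : M ^ (a x - b) ≤ ENNReal.ofReal (β ^ c * Real.exp (n * c)) := by
    calc M ^ (a x - b) ≤ (ENNReal.ofReal (β * τ)) ^ (a x - b) :=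
          ENNReal.rpow_le_rpow (h3.trans hVinv) (by linarith)
      _ ≤ (ENNReal.ofReal (β * τ)) ^ δ := by
          apply ENNReal.rpow_le_rpow_of_exponent_le _ hbδ
          rw [← ENNReal.ofReal_one]
          exact ENNReal.ofReal_le_ofReal (by nlinarith)
      _ = ENNReal.ofReal ((β * τ) ^ δ) := ENNReal.ofReal_rpow_of_pos (by positivity)
      _ ≤ _ := by
          apply ENNReal.ofReal_le_ofReal
          rw [Real.mul_rpow (by positivity) (by positivity)]
          apply mul_le_mul _ hτδ (by positivity) (by positivity)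
          exact Real.rpow_le_rpow_of_exponent_le hβ1 hδc
  calc M ^ a x = M ^ (a x - b + b) := by rw [sub_add_cancel]
    _ = M ^ (a x - b) * M ^ b := ENNReal.rpow_add_of_nonneg _ _ (by linarith) (by linarith)
    _ ≤ _ := mul_le_mul' h5 h1

/-- VM1 -/
theorem main : S_VM1 := by
  intro n a _ hlh ha1
  obtain ⟨_, c, hc⟩ := hlh
  refine ⟨ENNReal.ofReal ((max 1 (om n)⁻¹) ^ (max c 0) * Real.exp (n * (max c 0))),
    ENNReal.ofReal_ne_top, ?_⟩
  intro f hf hf1 hint x
  have hax : 0 < a x := by have := ha1 x; linarith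
  have hc' : ∀ x y : E n, |a x - a y| ≤ (max c 0) / Real.log (Real.exp 1 + 1 / ‖x - y‖) := by
    intro x y
    refine (hc x y).trans ?_
    have := one_le_log (1 / ‖x - y‖) (by positivity)
    gcongr
    exact le_max_left _ _
  rw [← ENNReal.le_rpow_inv_iff hax]
  unfold MM
  refine iSup₂_le ?_
  intro t ht
  rw [ENNReal.le_rpow_inv_iff hax]
  refine (ball_bound n a (max c 0) (le_max_right _ _) ha1 hc' f hf hf1 hint x t ht).trans ?_
  gcongr
  exact le_iSup₂ (f := fun (t : ℝ) (_ : 0 < t) => (volume (Metric.ball x t))⁻¹ *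
    ∫⁻ y in Metric.ball x t, f y ^ a y) t ht

end Pool.Agent.Helper51.VT
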